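import Mathlib

/-!
# A quadrinomial `x^n + x^m + x^k + a` with a multiple root outside the expected family

`x^45 + x^43 + x^42 - 2^42 / 3^45` has the double root `-2/3`.
-/

namespace Pool.Agent.Results.MP_21e947_nt.RationalDoubleRoot

open Polynomial

/-- The quadrinomial `f_{n,m,k}(a,x) = x^n + x^m + x^k + a` over the rational numbers. -/
noncomputable def quad (n m k : ℕ) (a : ℚ) : ℚ[X] := X ^ n + X ^ m + X ^ k + C a

/-- Some complex number is a root of `f` of multiplicity at least two. -/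
def HasMultipleRoot (f : ℚ[X]) : Prop :=
  ∃ θ : ℂ, 2 ≤ (f.map (algebraMap ℚ ℂ)).rootMultiplicity θ

/-- The family of exponents of the question: `(n, m, k) = (d(t+u), dt, du)`
with `d ≥ 1` and odd `t > u ≥ 1`. -/
def InFamily (n m k : ℕ) : Prop :=
  ∃ d t u : ℕ, 1 ≤ d ∧ Odd t ∧ Odd u ∧ 1 ≤ u ∧ u < t ∧ n = d * (t + u) ∧ m = d * t ∧ k = d * u

/-- The statement of Q1 (as a proposition). -/
def Q1 : Prop :=
  ∀ (a : ℚ) (n m k : ℕ), a ≠ 0 → 1 ≤ k → k < m → m < n → HasMultipleRoot (quad n m k a) →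
    a = 1 ∧ InFamily n m k

theorem mult :
    2 ≤ ((quad 45 43 42 (-(2 ^ 42 / 3 ^ 45))).map (algebraMap ℚ ℂ)).rootMultiplicity
      (-2 / 3) := by
  have hne : (quad 45 43 42 (-(2 ^ 42 / 3 ^ 45))).map (algebraMap ℚ ℂ) ≠ 0 := by
    rw [Ne, Polynomial.map_eq_zero_iff (algebraMap ℚ ℂ).injective]
    intro h
    have h2 := congrArg (fun p : ℚ[X] => p.coeff 45) h
    simp [quad, coeff_X_pow] at h2
  show 1 < _
  rw [Polynomial.one_lt_rootMultiplicity_iff_isRoot hne]
  constructor
  · simp only [quad, IsRoot.def, Polynomial.map_add, Polynomial.map_pow, map_X, map_C, eval_add,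
      eval_pow, eval_X, eval_C]
    push_cast
    simp only [map_ofNat]
    norm_num
  · simp only [quad, IsRoot.def, Polynomial.map_add, Polynomial.map_pow, map_X, map_C,
      derivative_add, derivative_X_pow, derivative_C, eval_add, eval_mul,
      eval_pow, eval_X, eval_C]
    norm_num

theorem notInFamily : ¬ InFamily 45 43 42 := by
  rintro ⟨d, t, u, -, -, -, -, -, hn, hm, hk⟩
  have : (45 : ℕ) = 43 + 42 := by
    rw [hn, Nat.mul_add, ← hm, ← hk]
  omega

/-- Q1 has a negative answer: the polynomial `x^45 + x^43 + x^42 - 2^42/3^45` has `-2/3` as a root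
of multiplicity at least two, its constant term is not `1`, and the exponents `(45, 43, 42)`,
which have greatest common divisor `1`, are not of the form `(d(t+u), dt, du)`. -/
theorem result :
    ¬ Q1 ∧
    2 ≤ ((quad 45 43 42 (-(2 ^ 42 / 3 ^ 45))).map (algebraMap ℚ ℂ)).rootMultiplicity (-2 / 3) ∧
    ¬ InFamily 45 43 42 := by
  refine ⟨?_, mult, notInFamily⟩
  intro hQ
  exact notInFamily (hQ (-(2 ^ 42 / 3 ^ 45)) 45 43 42 (by norm_num) (by norm_num) (by norm_num)
    (by norm_num) ⟨_, mult⟩).2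

end Pool.Agent.Results.MP_21e947_nt.RationalDoubleRoot
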